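import Mathlib

/-!
Marked Poisson process on the line, stable multi-matchings, infinite components.
-/

namespace Pool.Agent.Q240.PM

open MeasureTheory ProbabilityTheory
open scoped ENNReal NNReal

/-- The number of points `x` of the point set `V ⊆ ℝ` such that the pair `(x, D x)` lies in `B`. -/
noncomputable def cnt (V : Set ℝ) (D : ℝ → ℕ) (B : Set (ℝ × ℕ)) : ℕ∞ :=
  {x | x ∈ V ∧ (x, D x) ∈ B}.encard

/-- `V` is a homogeneous Poisson process of intensity `1` on `ℝ` whose points carry i.i.d. marks
`D x` of law `μ`: the marked points form a Poisson process on `ℝ × ℕ` with intensity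
`Lebesgue ⊗ μ`, i.e. the numbers of marked points in pairwise disjoint measurable sets `B i` of
finite intensity `r i` are independent Poisson variables with means `r i`. -/
structure IsMarkedPoisson {Ω : Type*} [MeasurableSpace Ω] (P : Measure Ω) (μ : PMF ℕ)
    (V : Ω → Set ℝ) (D : Ω → ℝ → ℕ) : Prop where
  meas : ∀ B : Set (ℝ × ℕ), MeasurableSet B → ∀ n : ℕ∞,
    MeasurableSet {ω | cnt (V ω) (D ω) B = n}
  law : ∀ (m : ℕ) (B : Fin m → Set (ℝ × ℕ)) (r : Fin m → ℝ≥0),
    (∀ i, MeasurableSet (B i)) → (∀ i j, i ≠ j → Disjoint (B i) (B j)) →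
    (∀ i, ((volume : Measure ℝ).prod μ.toMeasure) (B i) = r i) →
    ∀ n : Fin m → ℕ, P {ω | ∀ i, cnt (V ω) (D ω) (B i) = n i} =
      ∏ i, poissonMeasure (r i) {n i}

/-- `G`, a simple graph on the point set `V`, is a stable multi-matching with degrees `D`: every
vertex `x` has exactly `D x` neighbours, and for any two distinct points `x, y` either they are
joined by an edge or at least one of them has no incident edge of length greater than
`|x - y|`. -/
def IsStable (V : Set ℝ) (D : ℝ → ℕ) (G : SimpleGraph V) : Prop :=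
  (∀ x : V, (G.neighborSet x).encard = D x) ∧
  ∀ x y : V, x ≠ y → G.Adj x y ∨
    (∀ z : V, G.Adj x z → |(x : ℝ) - z| ≤ |(x : ℝ) - y|) ∨
    (∀ z : V, G.Adj y z → |(y : ℝ) - z| ≤ |(x : ℝ) - y|)

/-- `G` has a connected component with infinitely many vertices. -/
def HasInfiniteComponent {V : Set ℝ} (G : SimpleGraph V) : Prop :=
  ∃ c : G.ConnectedComponent, c.supp.Infinite

end Pool.Agent.Q240.PM
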