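import Pool.Agent.Q240.PM.Defs

/-!
Deterministic part: giants at every scale force an infinite component.
-/

namespace Pool.Agent.Q240.PM

open Set

/-- A weakly stable partial matching: degrees are at most `D`. -/
structure WStable (V : Set ℝ) (D : ℝ → ℕ) (A : ℝ → ℝ → Prop) : Prop where
  symm : ∀ a b, A a b → A b a
  irrefl : ∀ a, ¬ A a a
  mem : ∀ a b, A a b → b ∈ V
  deg : ∀ a, {z | A a z}.encard ≤ D a
  st : ∀ a ∈ V, ∀ b ∈ V, a ≠ b → A a b ∨ (∀ z, A a z → |a - z| ≤ |a - b|) ∨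
    (∀ z, A b z → |b - z| ≤ |a - b|)

variable {V : Set ℝ} {D : ℝ → ℕ} {A : ℝ → ℝ → Prop}

lemma WStable.clique (h : WStable V D A) {x : ℝ} {S : Set ℝ} (hS : ∀ y ∈ S, A x y)
    (hclose : ∀ y ∈ S, ∀ y' ∈ S, |y - y'| < |y - x|) (y : ℝ) (hy : y ∈ S) :
    S.encard ≤ D y := by
  have h1 : ∀ y' ∈ S, y' ≠ y → A y y' := by
    intro y' hy' hne
    rcases h.st y (h.mem _ _ (hS y hy)) y' (h.mem _ _ (hS y' hy')) hne.symm with h2 | h2 | h2
    · exact h2
    · have h3 := h2 x (h.symm _ _ (hS y hy))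
      have h4 := hclose y hy y' hy'
      linarith
    · have h3 := h2 x (h.symm _ _ (hS y' hy'))
      have h4 := hclose y' hy' y hy
      rw [abs_sub_comm y' y] at h4
      linarith
  have h2 : insert x (S \ {y}) ⊆ {z | A y z} := by
    rintro z (rfl | ⟨hz1, hz2⟩)
    · exact h.symm _ _ (hS y hy)
    · exact h1 z hz1 hz2
  have h3 : x ∉ S \ {y} := fun hx => h.irrefl x (hS x hx.1)
  calc S.encard = (S \ {y}).encard + 1 := (encard_sdiff_singleton_add_one hy).symm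
    _ = (insert x (S \ {y})).encard := (encard_insert_of_notMem h3).symm
    _ ≤ {z | A y z}.encard := encard_le_encard h2
    _ ≤ D y := h.deg y

lemma WStable.small (h : WStable V D A) {x : ℝ} {S T : Set ℝ} {m : ℕ} (hS : ∀ y ∈ S, A x y)
    (hclose : ∀ y ∈ S, ∀ y' ∈ S, |y - y'| < |y - x|)
    (hT : {y | y ∈ V ∧ y ∈ T ∧ m ≤ D y}.encard < m) (hST : S ⊆ T) : S.encard < m := by
  by_contra hcon
  push Not at hcon
  have h1 : S ⊆ {y | y ∈ V ∧ y ∈ T ∧ m ≤ D y} := by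
    intro y hy
    refine ⟨h.mem _ _ (hS y hy), hST hy, ?_⟩
    exact_mod_cast hcon.trans (h.clique hS hclose y hy)
  exact absurd (hcon.trans (encard_le_encard h1)) (not_le.mpr hT)

lemma WStable.count (h : WStable V D A) {x : ℝ} {m J : ℕ}
    (hT : {y | y ∈ V ∧ |x - y| ≤ 2 ^ J ∧ m ≤ D y}.encard < m) (j : ℕ) (hj : j ≤ J) :
    {z | A x z ∧ |x - z| ≤ 2 ^ j}.encard ≤
      {z | A x z ∧ |x - z| ≤ 1}.encard + ((2 * j * m : ℕ) : ℕ∞) := by
  induction j with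
  | zero => simp
  | succ j ih =>
    have hT' : {y | y ∈ V ∧ y ∈ {y | |x - y| ≤ 2 ^ J} ∧ m ≤ D y}.encard < m := hT
    have hpow : (2 : ℝ) ^ (j + 1) ≤ 2 ^ J := pow_le_pow_right₀ (by norm_num) hj
    have hp : (0 : ℝ) < 2 ^ j := by positivity
    have h2 : (2 : ℝ) ^ (j + 1) = 2 * 2 ^ j := by ring
    have hR : {z | A x z ∧ 2 ^ j < z - x ∧ z - x ≤ 2 ^ (j + 1)}.encard < m := by
      apply h.small (x := x) (T := {y | |x - y| ≤ 2 ^ J}) (fun y hy => hy.1) _ hT'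
      · rintro z ⟨-, hz1, hz2⟩
        simp only [Set.mem_ofPred_eq]
        rw [abs_le]
        constructor <;> linarith
      · rintro y ⟨-, hy1, hy2⟩ y' ⟨-, hy1', hy2'⟩
        rw [abs_of_pos (show 0 < y - x by linarith), abs_lt]
        constructor <;> linarith
    have hL : {z | A x z ∧ 2 ^ j < x - z ∧ x - z ≤ 2 ^ (j + 1)}.encard < m := by
      apply h.small (x := x) (T := {y | |x - y| ≤ 2 ^ J}) (fun y hy => hy.1) _ hT'
      · rintro z ⟨-, hz1, hz2⟩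
        simp only [Set.mem_ofPred_eq]
        rw [abs_le]
        constructor <;> linarith
      · rintro y ⟨-, hy1, hy2⟩ y' ⟨-, hy1', hy2'⟩
        rw [abs_sub_comm y x, abs_of_pos (show 0 < x - y by linarith), abs_lt]
        constructor <;> linarith
    have hsub : {z | A x z ∧ |x - z| ≤ 2 ^ (j + 1)} ⊆ {z | A x z ∧ |x - z| ≤ 2 ^ j} ∪
        ({z | A x z ∧ 2 ^ j < z - x ∧ z - x ≤ 2 ^ (j + 1)} ∪
        {z | A x z ∧ 2 ^ j < x - z ∧ x - z ≤ 2 ^ (j + 1)}) := by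
      rintro z ⟨hz1, hz2⟩
      by_cases hz : |x - z| ≤ 2 ^ j
      · exact Or.inl ⟨hz1, hz⟩
      · right
        push Not at hz
        rw [abs_le] at hz2
        rcases le_or_gt 0 (x - z) with hs | hs
        · rw [abs_of_nonneg hs] at hz
          exact Or.inr ⟨hz1, hz, hz2.2⟩
        · rw [abs_of_neg hs] at hz
          exact Or.inl ⟨hz1, by linarith, by linarith⟩
    calc {z | A x z ∧ |x - z| ≤ 2 ^ (j + 1)}.encard
        ≤ {z | A x z ∧ |x - z| ≤ 2 ^ j}.encard +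
          ({z | A x z ∧ 2 ^ j < z - x ∧ z - x ≤ 2 ^ (j + 1)}.encard +
          {z | A x z ∧ 2 ^ j < x - z ∧ x - z ≤ 2 ^ (j + 1)}.encard) :=
          (encard_le_encard hsub).trans ((encard_union_le _ _).trans
            (add_le_add le_rfl (encard_union_le _ _)))
      _ ≤ ({z | A x z ∧ |x - z| ≤ 1}.encard + ((2 * j * m : ℕ) : ℕ∞)) + ((m : ℕ∞) + m) :=
          add_le_add (ih (by omega)) (add_le_add hR.le hL.le)
      _ = {z | A x z ∧ |x - z| ≤ 1}.encard + ((2 * (j + 1) * m : ℕ) : ℕ∞) := by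
          rw [add_assoc]
          congr 1
          push_cast
          ring

/-- exponent of the radius of scale `k` -/
def bb (k : ℕ) : ℕ := (k + 1) ^ 3 + k

/-- threshold of scale `k` -/
def mm (k : ℕ) : ℕ := 2 * 16 ^ (k ^ 2)

/-- degree of the giants of scale `k` -/
def dd (k : ℕ) : ℕ := 16 ^ ((k + 1) ^ 2)

lemma bb_le_succ (k : ℕ) : bb k ≤ bb (k + 1) := by
  unfold bb
  gcongr <;> omega

lemma bb_mono {k l : ℕ} (h : k ≤ l) : bb k ≤ bb l := monotone_nat_of_le_succ bb_le_succ h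

lemma le_bb (k : ℕ) : k ≤ bb k := by unfold bb; omega

lemma lt_dd (k : ℕ) : k < dd k := by
  unfold dd
  calc k < 16 ^ k := Nat.lt_pow_self (by norm_num)
    _ ≤ 16 ^ ((k + 1) ^ 2) := Nat.pow_le_pow_right (by norm_num) (by nlinarith)

lemma num_bound (k : ℕ) (hk : 1 ≤ k) : mm k + 2 * (bb (k + 1) + 1) * mm k < dd k := by
  have h1 : k + 2 ≤ 2 ^ (k + 1) := by
    have := Nat.lt_pow_self (a := 2) (n := k + 1) (by norm_num)
    omega
  have h2 : (k + 2) ^ 3 ≤ 8 ^ (k + 1) := by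
    calc (k + 2) ^ 3 ≤ (2 ^ (k + 1)) ^ 3 := Nat.pow_le_pow_left h1 3
      _ = 8 ^ (k + 1) := by rw [← pow_mul, mul_comm, pow_mul]; norm_num
  have h3 : k + 2 ≤ 8 ^ (k + 1) := h1.trans (Nat.pow_le_pow_left (by norm_num) _)
  have h4 : 1 + 2 * (bb (k + 1) + 1) ≤ 5 * 8 ^ (k + 1) := by
    unfold bb
    have : 1 ≤ 8 ^ (k + 1) := Nat.one_le_pow _ _ (by norm_num)
    have e : k + 1 + 1 = k + 2 := rfl
    rw [e]
    omega
  have h5 : mm k + 2 * (bb (k + 1) + 1) * mm k = (1 + 2 * (bb (k + 1) + 1)) * mm k := by ring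
  rw [h5]
  have h6 : 10 * 8 ^ (k + 1) < 16 ^ (2 * k + 1) := by
    obtain ⟨n, rfl⟩ : ∃ n, k = n + 1 := ⟨k - 1, by omega⟩
    have e1 : 8 ^ (n + 1 + 1) = 64 * 8 ^ n := by ring
    have e2 : 16 ^ (2 * (n + 1) + 1) = 4096 * 256 ^ n := by
      rw [show 2 * (n + 1) + 1 = 2 * n + 3 by ring, pow_add, pow_mul]; norm_num; ring
    rw [e1, e2]
    have : 8 ^ n ≤ 256 ^ n := Nat.pow_le_pow_left (by norm_num) _
    have : 1 ≤ 256 ^ n := Nat.one_le_pow _ _ (by norm_num)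
    omega
  have h7 : dd k = 16 ^ (k ^ 2) * 16 ^ (2 * k + 1) := by
    unfold dd; rw [← pow_add]; congr 1; ring
  rw [h7]
  calc (1 + 2 * (bb (k + 1) + 1)) * mm k ≤ (5 * 8 ^ (k + 1)) * mm k := Nat.mul_le_mul_right _ h4
    _ = 16 ^ (k ^ 2) * (10 * 8 ^ (k + 1)) := by unfold mm; ring
    _ < 16 ^ (k ^ 2) * 16 ^ (2 * k + 1) := by
        apply Nat.mul_lt_mul_of_pos_left h6 (by positivity)

/-- Giants at every large scale. -/
structure Good (V : Set ℝ) (D : ℝ → ℕ) (x : ℕ → ℝ) (K : ℕ) : Prop where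
  pos : 1 ≤ K
  mem : ∀ k, K ≤ k → x k ∈ V
  near : ∀ k, K ≤ k → |x k| ≤ 2 ^ bb k
  big : ∀ k, K ≤ k → dd k ≤ D (x k)
  few : ∀ k, K ≤ k → {y | y ∈ V ∧ |y| ≤ 2 ^ (bb (k + 1) + 2) ∧ mm k ≤ D y}.encard < mm k
  crowd : ∀ k, K ≤ k → {y | y ∈ V ∧ |x k - y| ≤ 1}.encard ≤ mm k
  fin : ∀ r : ℝ, (V ∩ {z | |z| ≤ r}).Finite

variable {x : ℕ → ℝ} {K : ℕ}

lemma Good.count (h : Good V D x K) (hA : WStable V D A) {k : ℕ} (hk : K ≤ k) :
    {z | A (x k) z ∧ |x k - z| ≤ 2 ^ (bb (k + 1) + 1)}.encard < dd k := by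
  have hp : (2 : ℝ) ^ bb k ≤ 2 ^ (bb (k + 1)) := pow_le_pow_right₀ (by norm_num) (bb_le_succ k)
  have hp0 : (0 : ℝ) < 2 ^ (bb (k + 1)) := by positivity
  have e1 : (2 : ℝ) ^ (bb (k + 1) + 1) = 2 * 2 ^ (bb (k + 1)) := by ring
  have e2 : (2 : ℝ) ^ (bb (k + 1) + 2) = 4 * 2 ^ (bb (k + 1)) := by ring
  have h1 : {y | y ∈ V ∧ |x k - y| ≤ 2 ^ (bb (k + 1) + 1) ∧ mm k ≤ D y}.encard < mm k := by
    refine (encard_le_encard ?_).trans_lt (h.few k hk)
    rintro y ⟨hy1, hy2, hy3⟩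
    refine ⟨hy1, ?_, hy3⟩
    have h3 := h.near k hk
    have h4 : |y| - |x k| ≤ |x k - y| := by
      have := abs_sub_abs_le_abs_sub y (x k)
      rwa [abs_sub_comm] at this
    rw [e2]
    rw [e1] at hy2
    linarith
  have h2 := hA.count h1 _ le_rfl
  have h3 : {z | A (x k) z ∧ |x k - z| ≤ 1}.encard ≤ mm k := by
    refine (encard_le_encard ?_).trans (h.crowd k hk)
    rintro y ⟨hy1, hy2⟩
    exact ⟨hA.mem _ _ hy1, hy2⟩
  have h4 := num_bound k (h.pos.trans hk)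
  calc {z | A (x k) z ∧ |x k - z| ≤ 2 ^ (bb (k + 1) + 1)}.encard
      ≤ (mm k : ℕ∞) + ((2 * (bb (k + 1) + 1) * mm k : ℕ) : ℕ∞) :=
        h2.trans (add_le_add h3 le_rfl)
    _ = ((mm k + 2 * (bb (k + 1) + 1) * mm k : ℕ) : ℕ∞) := by push_cast; rfl
    _ < dd k := by exact_mod_cast h4

/-- The relation on `ℝ` attached to a graph on `V`. -/
def rel (G : SimpleGraph V) (a b : ℝ) : Prop := ∃ (ha : a ∈ V) (hb : b ∈ V), G.Adj ⟨a, ha⟩ ⟨b, hb⟩

lemma rel_encard (G : SimpleGraph V) (a : V) :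
    {z | rel G a z}.encard = (G.neighborSet a).encard := by
  rw [← (Subtype.val_injective).encard_image (G.neighborSet a)]
  congr 1
  ext z
  constructor
  · rintro ⟨h1, h2, h3⟩
    exact ⟨⟨z, h2⟩, h3, rfl⟩
  · rintro ⟨b, hb, rfl⟩
    exact ⟨a.2, b.2, hb⟩

lemma IsStable.wstable {G : SimpleGraph V} (hG : IsStable V D G) : WStable V D (rel G) where
  symm := by
    rintro a b ⟨h1, h2, h3⟩
    exact ⟨h2, h1, h3.symm⟩
  irrefl := by
    rintro a ⟨h1, h2, h3⟩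
    exact G.loopless.irrefl _ h3
  mem := by
    rintro a b ⟨h1, h2, h3⟩
    exact h2
  deg := by
    intro a
    by_cases ha : a ∈ V
    · have h1 := rel_encard G ⟨a, ha⟩
      simp only at h1
      rw [h1, hG.1]
    · have : {z | rel G a z} = ∅ := by
        ext z
        simp only [Set.mem_ofPred_eq, Set.mem_empty_iff_false, iff_false]
        rintro ⟨h1, -⟩
        exact ha h1
      rw [this]
      simp
  st := by
    intro a ha b hb hab
    have hne : (⟨a, ha⟩ : V) ≠ ⟨b, hb⟩ := fun he => hab (Subtype.ext_iff.mp he)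
    rcases hG.2 _ _ hne with h1 | h1 | h1
    · exact Or.inl ⟨ha, hb, h1⟩
    · refine Or.inr (Or.inl ?_)
      rintro z ⟨h2, h3, h4⟩
      exact h1 _ h4
    · refine Or.inr (Or.inr ?_)
      rintro z ⟨h2, h3, h4⟩
      exact h1 _ h4

lemma Good.exists_far (h : Good V D x K) {G : SimpleGraph V} (hG : IsStable V D G) {k : ℕ}
    (hk : K ≤ k) :
    ∃ z : V, G.Adj ⟨x k, h.mem k hk⟩ z ∧ 2 ^ (bb (k + 1) + 1) < |x k - z| := by
  by_contra hcon
  push Not at hcon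
  have h1 := h.count hG.wstable hk
  have h2 : {z | rel G (x k) z} ⊆ {z | rel G (x k) z ∧ |x k - z| ≤ 2 ^ (bb (k + 1) + 1)} := by
    rintro z hz
    refine ⟨hz, ?_⟩
    obtain ⟨h3, h4, h5⟩ := hz
    exact hcon ⟨z, h4⟩ h5
  have h3 := (encard_le_encard h2).trans_lt h1
  rw [rel_encard G ⟨x k, h.mem k hk⟩, hG.1] at h3
  have h4 : D (x k) < dd k := by exact_mod_cast h3
  have h5 := h.big k hk
  omega

lemma Good.adj_or_eq (h : Good V D x K) {G : SimpleGraph V} (hG : IsStable V D G) {k : ℕ}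
    (hk : K ≤ k) :
    (⟨x k, h.mem k hk⟩ : V) = ⟨x (k + 1), h.mem (k + 1) (by omega)⟩ ∨
      G.Adj ⟨x k, h.mem k hk⟩ ⟨x (k + 1), h.mem (k + 1) (by omega)⟩ := by
  by_cases he : (⟨x k, h.mem k hk⟩ : V) = ⟨x (k + 1), h.mem (k + 1) (by omega)⟩
  · exact Or.inl he
  right
  have hp : (2 : ℝ) ^ bb k ≤ 2 ^ (bb (k + 1)) := pow_le_pow_right₀ (by norm_num) (bb_le_succ k)
  have hp' : (2 : ℝ) ^ bb (k + 1) ≤ 2 ^ (bb (k + 1 + 1)) :=
    pow_le_pow_right₀ (by norm_num) (bb_le_succ (k + 1))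
  have hp0 : (0 : ℝ) < 2 ^ (bb (k + 1)) := by positivity
  have e1 : (2 : ℝ) ^ (bb (k + 1) + 1) = 2 * 2 ^ (bb (k + 1)) := by ring
  have e2 : (2 : ℝ) ^ (bb (k + 1 + 1) + 1) = 2 * 2 ^ (bb (k + 1 + 1)) := by ring
  have hd : |x k - x (k + 1)| ≤ 2 * 2 ^ (bb (k + 1)) := by
    have h1 := h.near k hk
    have h2 := h.near (k + 1) (by omega)
    have h3 := abs_sub (x k) (x (k + 1))
    linarith
  rcases hG.2 _ _ he with h1 | h1 | h1
  · exact h1
  · obtain ⟨z, hz, hz2⟩ := h.exists_far hG hk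
    have := h1 z hz
    simp only at this
    linarith
  · obtain ⟨z, hz, hz2⟩ := h.exists_far hG (k := k + 1) (by omega)
    have := h1 z hz
    simp only at this
    linarith

lemma Good.reach (h : Good V D x K) {G : SimpleGraph V} (hG : IsStable V D G) (k : ℕ)
    (hk : K ≤ k) :
    G.Reachable ⟨x K, h.mem K le_rfl⟩ ⟨x k, h.mem k hk⟩ := by
  induction k, hk using Nat.le_induction with
  | base => exact SimpleGraph.Reachable.refl _
  | succ k hk ih =>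
    rcases h.adj_or_eq hG hk with h1 | h1
    · rw [← h1]; exact ih
    · exact ih.trans h1.reachable

lemma Good.infinite_component (h : Good V D x K) {G : SimpleGraph V} (hG : IsStable V D G) :
    HasInfiniteComponent G := by
  refine ⟨G.connectedComponentMk ⟨x K, h.mem K le_rfl⟩, ?_⟩
  intro hfin
  have h1 : (Subtype.val '' (G.connectedComponentMk ⟨x K, h.mem K le_rfl⟩).supp).Finite :=
    hfin.image _
  obtain ⟨M, hM⟩ := (h1.image D).bddAbove
  obtain ⟨k, hk1, hk2⟩ : ∃ k, K ≤ k ∧ M < dd k :=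
    ⟨max K M, le_max_left _ _, lt_of_le_of_lt (le_max_right K M) (lt_dd _)⟩
  have h2 : D (x k) ≤ M := by
    apply hM
    refine ⟨x k, ⟨⟨x k, h.mem k hk1⟩, ?_, rfl⟩, rfl⟩
    rw [SimpleGraph.ConnectedComponent.mem_supp_iff]
    exact SimpleGraph.ConnectedComponent.eq.mpr (h.reach hG k hk1).symm
  have h3 := h.big k hk1
  omega

end Pool.Agent.Q240.PM
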