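import Pool.Agent.Q240.PM.Det

/-!
Existence of a stable multi-matching when there are giants at every scale.
-/

namespace Pool.Agent.Q240.PM

open Set Filter

variable {V : Set ℝ} {D : ℝ → ℕ} {x : ℕ → ℝ} {K : ℕ}

/-- `a` has at least `D a` neighbours within distance `r` for the relation `R`. -/
def Full (D : ℝ → ℕ) (R : ℝ → ℝ → Prop) (a r : ℝ) : Prop :=
  (D a : ℕ∞) ≤ {z | R a z ∧ |a - z| ≤ r}.encard

/-- Finite stable partial matching. -/
lemma finite_stable (D : ℝ → ℕ) (F : Finset ℝ) :
    ∃ R : ℝ → ℝ → Prop, (∀ a b, R a b → R b a) ∧ (∀ a, ¬ R a a) ∧ (∀ a b, R a b → a ∈ F ∧ b ∈ F) ∧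
      (∀ a, {z | R a z}.encard ≤ D a) ∧
      ∀ a ∈ F, ∀ b ∈ F, a ≠ b → R a b ∨ Full D R a |a - b| ∨ Full D R b |a - b| := by
  classical
  have key : ∀ S : Finset (ℝ × ℝ), S ⊆ F.offDiag →
      ∃ R : ℝ → ℝ → Prop, (∀ a b, R a b → R b a) ∧ (∀ a b, R a b → (a, b) ∈ S ∨ (b, a) ∈ S) ∧
        (∀ a, {z | R a z}.encard ≤ D a) ∧
        ∀ a b, (a, b) ∈ S → R a b ∨ Full D R a |a - b| ∨ Full D R b |a - b| := by
    intro S
    induction S using Finset.induction_on_max_value (fun p : ℝ × ℝ => |p.1 - p.2|) with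
    | empty =>
      intro _
      refine ⟨fun _ _ => False, ?_, ?_, ?_, ?_⟩ <;> simp
    | insert p s hps hmax ih =>
      intro hsub
      obtain ⟨a, b⟩ := p
      have hab : a ∈ F ∧ b ∈ F ∧ a ≠ b := by
        simpa using hsub (Finset.mem_insert_self _ _)
      obtain ⟨R, hsymm, hS, hdeg, hst⟩ := ih (fun q hq => hsub (Finset.mem_insert_of_mem hq))
      have hlen : ∀ c d, R c d → |c - d| ≤ |a - b| := by
        intro c d hcd
        rcases hS c d hcd with h | h
        · exact hmax _ h
        · rw [abs_sub_comm]; exact hmax _ h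
      have hfull : ∀ c, (D c : ℕ∞) ≤ {z | R c z}.encard → Full D R c |a - b| := by
        intro c hc
        refine hc.trans (encard_le_encard ?_)
        intro z hz
        exact ⟨hz, hlen _ _ hz⟩
      by_cases ha : (D a : ℕ∞) ≤ {z | R a z}.encard
      · refine ⟨R, hsymm, fun c d h => ?_, hdeg, ?_⟩
        · rcases hS c d h with h | h
          · exact Or.inl (Finset.mem_insert_of_mem h)
          · exact Or.inr (Finset.mem_insert_of_mem h)
        · intro c d hcd
          rcases Finset.mem_insert.mp hcd with h | h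
          · obtain ⟨rfl, rfl⟩ := Prod.mk.inj h
            exact Or.inr (Or.inl (hfull _ ha))
          · exact hst c d h
      by_cases hb : (D b : ℕ∞) ≤ {z | R b z}.encard
      · refine ⟨R, hsymm, fun c d h => ?_, hdeg, ?_⟩
        · rcases hS c d h with h | h
          · exact Or.inl (Finset.mem_insert_of_mem h)
          · exact Or.inr (Finset.mem_insert_of_mem h)
        · intro c d hcd
          rcases Finset.mem_insert.mp hcd with h | h
          · obtain ⟨rfl, rfl⟩ := Prod.mk.inj h
            exact Or.inr (Or.inr (hfull _ hb))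
          · exact hst c d h
      push Not at ha hb
      refine ⟨fun c d => R c d ∨ (c = a ∧ d = b) ∨ (c = b ∧ d = a), ?_, ?_, ?_, ?_⟩
      · rintro c d (h | ⟨rfl, rfl⟩ | ⟨rfl, rfl⟩)
        · exact Or.inl (hsymm _ _ h)
        · exact Or.inr (Or.inr ⟨rfl, rfl⟩)
        · exact Or.inr (Or.inl ⟨rfl, rfl⟩)
      · rintro c d (h | ⟨rfl, rfl⟩ | ⟨rfl, rfl⟩)
        · rcases hS c d h with h | h
          · exact Or.inl (Finset.mem_insert_of_mem h)
          · exact Or.inr (Finset.mem_insert_of_mem h)
        · exact Or.inl (Finset.mem_insert_self _ _)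
        · exact Or.inr (Finset.mem_insert_self _ _)
      · intro c
        have hne : a ≠ b := hab.2.2
        by_cases hca : c = a
        · subst hca
          have h1 : {z | R c z ∨ (c = c ∧ z = b) ∨ (c = b ∧ z = c)} ⊆ insert b {z | R c z} := by
            rintro z (h | h | h)
            · exact Or.inr h
            · exact Or.inl h.2
            · exact absurd h.1 hne
          calc _ ≤ (insert b {z | R c z}).encard := encard_le_encard h1
            _ ≤ {z | R c z}.encard + 1 := encard_insert_le _ _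
            _ ≤ D c := Order.add_one_le_of_lt ha
        · by_cases hcb : c = b
          · subst hcb
            have h1 : {z | R c z ∨ (c = a ∧ z = c) ∨ (c = c ∧ z = a)} ⊆ insert a {z | R c z} := by
              rintro z (h | h | h)
              · exact Or.inr h
              · exact absurd h.1 hca
              · exact Or.inl h.2
            calc _ ≤ (insert a {z | R c z}).encard := encard_le_encard h1
              _ ≤ {z | R c z}.encard + 1 := encard_insert_le _ _
              _ ≤ D c := Order.add_one_le_of_lt hb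
          · refine le_trans (encard_le_encard ?_) (hdeg c)
            rintro z (h | h | h)
            · exact h
            · exact absurd h.1 hca
            · exact absurd h.1 hcb
      · intro c d hcd
        rcases Finset.mem_insert.mp hcd with h | h
        · obtain ⟨rfl, rfl⟩ := Prod.mk.inj h
          exact Or.inl (Or.inr (Or.inl ⟨rfl, rfl⟩))
        · have hmono : ∀ e r, Full D R e r →
              Full D (fun c d => R c d ∨ (c = a ∧ d = b) ∨ (c = b ∧ d = a)) e r := by
            intro e r he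
            refine le_trans he (encard_le_encard ?_)
            rintro z ⟨h1, h2⟩
            exact ⟨Or.inl h1, h2⟩
          rcases hst c d h with h | h | h
          · exact Or.inl (Or.inl h)
          · exact Or.inr (Or.inl (hmono _ _ h))
          · exact Or.inr (Or.inr (hmono _ _ h))
  obtain ⟨R, h1, h2, h3, h4⟩ := key F.offDiag le_rfl
  refine ⟨R, h1, ?_, ?_, h3, ?_⟩
  · intro a ha
    rcases h2 a a ha with h | h <;> simp at h
  · intro a b hab
    rcases h2 a b hab with h | h
    · simp at h; exact ⟨h.1, h.2.1⟩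
    · simp at h; exact ⟨h.2.1, h.1⟩
  · intro a ha b hb hab
    exact h4 a b (by simp [ha, hb, hab])

theorem Good.exists_stable (h : Good V D x K) : ∃ G : SimpleGraph V, IsStable V D G := by
  classical
  have hlf := h.fin
  let F : ℕ → Finset ℝ := fun n => (hlf n).toFinset
  have hF : ∀ n a, a ∈ F n ↔ a ∈ V ∧ |a| ≤ n := by
    intro n a; simp [F]
  choose R hsymm hirr hmem hdeg hst using fun n => finite_stable D (F n)
  let U : Ultrafilter ℕ := hyperfilter ℕ
  have hU : ∀ m : ℕ, ∀ᶠ n in (U : Filter ℕ), m ≤ n := fun m =>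
    Nat.hyperfilter_le_atTop (eventually_ge_atTop m)
  let A : ℝ → ℝ → Prop := fun a b => ∀ᶠ n in (U : Filter ℕ), R n a b
  have hAsymm : ∀ a b, A a b → A b a := fun a b hab => hab.mono fun n hn => hsymm n _ _ hn
  have hAirr : ∀ a, ¬ A a a := by
    intro a ha
    obtain ⟨n, hn⟩ := ha.exists
    exact hirr n a hn
  have hAmem : ∀ a b, A a b → a ∈ V ∧ b ∈ V := by
    intro a b ha
    obtain ⟨n, hn⟩ := ha.exists
    obtain ⟨h1, h2⟩ := hmem n a b hn
    exact ⟨((hF n a).mp h1).1, ((hF n b).mp h2).1⟩
  have hiff : ∀ a, ∀ Z : Set ℝ, Z.Finite → ∀ᶠ n in (U : Filter ℕ), ∀ z ∈ Z, (R n a z ↔ A a z) := by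
    intro a Z hZ
    rw [eventually_all_finite hZ]
    intro z _
    by_cases hz : A a z
    · filter_upwards [hz] with n hn
      exact ⟨fun _ => hz, fun _ => hn⟩
    · have : ∀ᶠ n in (U : Filter ℕ), ¬ R n a z := Ultrafilter.eventually_not.mpr hz
      filter_upwards [this] with n hn
      exact ⟨fun h => absurd h hn, fun h => absurd h hz⟩
  have hAdeg : ∀ a, {z | A a z}.encard ≤ D a := by
    intro a
    by_contra hcon
    push Not at hcon
    have h1 : ((D a + 1 : ℕ) : ℕ∞) ≤ {z | A a z}.encard := by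
      rw [Nat.cast_add, Nat.cast_one]
      exact Order.add_one_le_of_lt hcon
    obtain ⟨T, hT1, hT2⟩ := exists_subset_encard_eq h1
    have hTfin : T.Finite := by
      rw [← encard_lt_top_iff, hT2]
      exact ENat.natCast_lt_top _
    obtain ⟨n, hn⟩ := (hiff a T hTfin).exists
    have h2 : T ⊆ {z | R n a z} := fun z hz => (hn z hz).mpr (hT1 hz)
    have h3 := (encard_le_encard h2).trans (hdeg n a)
    rw [hT2] at h3
    have h4 : D a + 1 ≤ D a := by exact_mod_cast h3
    omega
  have hAfull : ∀ a r, (∀ᶠ n in (U : Filter ℕ), Full D (R n) a r) → Full D A a r := by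
    intro a r har
    have hZ : (V ∩ {z | |z| ≤ |a| + r}).Finite := hlf _
    obtain ⟨n, hn1, hn2⟩ := (har.and (hiff a _ hZ)).exists
    refine le_trans hn1 (encard_le_encard ?_)
    rintro z ⟨hz1, hz2⟩
    have hzV : z ∈ V := ((hF n z).mp (hmem n a z hz1).2).1
    refine ⟨(hn2 z ⟨hzV, ?_⟩).mp hz1, hz2⟩
    simp only [Set.mem_ofPred_eq]
    have h4 := abs_sub_abs_le_abs_sub z a
    rw [abs_sub_comm] at h4
    linarith
  have hAst : ∀ a ∈ V, ∀ b ∈ V, a ≠ b → A a b ∨ Full D A a |a - b| ∨ Full D A b |a - b| := by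
    intro a ha b hb hab
    obtain ⟨m, hm⟩ := exists_nat_ge (max |a| |b|)
    have h1 : ∀ᶠ n in (U : Filter ℕ), R n a b ∨ Full D (R n) a |a - b| ∨
        Full D (R n) b |a - b| := by
      filter_upwards [hU m] with n hn
      have hmn : (m : ℝ) ≤ n := by exact_mod_cast hn
      refine hst n a ((hF n a).mpr ⟨ha, ?_⟩) b ((hF n b).mpr ⟨hb, ?_⟩) hab
      · exact (le_max_left _ _).trans (hm.trans hmn)
      · exact (le_max_right _ _).trans (hm.trans hmn)
    rcases Ultrafilter.eventually_or.mp h1 with h2 | h2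
    · exact Or.inl h2
    · rcases Ultrafilter.eventually_or.mp h2 with h3 | h3
      · exact Or.inr (Or.inl (hAfull _ _ h3))
      · exact Or.inr (Or.inr (hAfull _ _ h3))
  have hfar : ∀ c r : ℝ, Full D A c r → ∀ z, A c z → |c - z| ≤ r := by
    intro c r hc z hz
    have h1 : {z | A c z ∧ |c - z| ≤ r} ⊆ {z | A c z} := fun z hz => hz.1
    have h2 : {z | A c z}.Finite := by
      rw [← encard_lt_top_iff]
      exact (hAdeg c).trans_lt (ENat.natCast_lt_top _)
    have h3 := (h2.subset h1).eq_of_subset_of_encard_le h1 ((hAdeg c).trans hc)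
    have h4 : z ∈ {z | A c z ∧ |c - z| ≤ r} := by
      rw [h3]; exact hz
    exact h4.2
  have hW : WStable V D A := by
    refine ⟨hAsymm, hAirr, fun a b hab => (hAmem a b hab).2, hAdeg, ?_⟩
    intro a ha b hb hab
    rcases hAst a ha b hb hab with h1 | h1 | h1
    · exact Or.inl h1
    · exact Or.inr (Or.inl (hfar a _ h1))
    · exact Or.inr (Or.inr (hfar b _ h1))
  have hAsat : ∀ a ∈ V, (D a : ℕ∞) ≤ {z | A a z}.encard := by
    intro a ha
    by_contra hcon
    have hNfin : {z | A a z}.Finite := by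
      rw [← encard_lt_top_iff]
      exact (not_le.mp hcon).trans (ENat.natCast_lt_top _)
    obtain ⟨M, hM⟩ := ((hNfin.insert a).image D).bddAbove
    obtain ⟨m, hm⟩ := pow_unbounded_of_one_lt |a| (show (1 : ℝ) < 2 by norm_num)
    obtain ⟨k, hk1, hk2, hk3⟩ : ∃ k, K ≤ k ∧ M < dd k ∧ |a| ≤ 2 ^ bb k := by
      refine ⟨max K (max M m), le_max_left _ _, ?_, ?_⟩
      · exact lt_of_le_of_lt ((le_max_left M m).trans (le_max_right K _)) (lt_dd _)
      · exact hm.le.trans (pow_le_pow_right₀ (by norm_num)
          (((le_max_right M m).trans (le_max_right K _)).trans (le_bb _)))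
    have hxk : x k ∉ insert a {z | A a z} := by
      intro hx
      have h1 : D (x k) ≤ M := hM ⟨x k, hx, rfl⟩
      have h2 := h.big k hk1
      omega
    have hne : a ≠ x k := fun he => hxk (Or.inl he.symm)
    have hna : ¬ A a (x k) := fun he => hxk (Or.inr he)
    rcases hAst a ha (x k) (h.mem k hk1) hne with h1 | h1 | h1
    · exact hna h1
    · apply hcon
      exact le_trans h1 (encard_le_encard fun z hz => hz.1)
    · have h2 : {z | A (x k) z ∧ |x k - z| ≤ |a - x k|} ⊆
          {z | A (x k) z ∧ |x k - z| ≤ 2 ^ (bb (k + 1) + 1)} := by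
        rintro z ⟨hz1, hz2⟩
        refine ⟨hz1, hz2.trans ?_⟩
        have h3 := h.near k hk1
        have h5 := abs_sub a (x k)
        have h6 : (2 : ℝ) ^ bb k ≤ 2 ^ (bb (k + 1)) :=
          pow_le_pow_right₀ (by norm_num) (bb_le_succ k)
        have e1 : (2 : ℝ) ^ (bb (k + 1) + 1) = 2 * 2 ^ (bb (k + 1)) := by ring
        linarith
      have h3 := (le_trans h1 (encard_le_encard h2)).trans_lt (h.count hW hk1)
      have h4 : D (x k) < dd k := by exact_mod_cast h3
      have h5 := h.big k hk1
      omega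
  have hAeq : ∀ a ∈ V, {z | A a z}.encard = D a := fun a ha => le_antisymm (hAdeg a) (hAsat a ha)
  refine ⟨⟨fun a b => A a b, ⟨fun a b hab => hAsymm _ _ hab⟩, ⟨fun a ha => hAirr _ ha⟩⟩, ?_, ?_⟩
  · intro a
    rw [← (Subtype.val_injective).encard_image, ← hAeq a a.2]
    congr 1
    ext z
    constructor
    · rintro ⟨b, hb, rfl⟩
      exact hb
    · intro hz
      exact ⟨⟨z, (hAmem _ _ hz).2⟩, hz, rfl⟩
  · intro a b hab
    have hne : (a : ℝ) ≠ b := fun he => hab (Subtype.ext he)
    rcases hAst a a.2 b b.2 hne with h1 | h1 | h1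
    · exact Or.inl h1
    · exact Or.inr (Or.inl fun z hz => hfar a _ h1 z hz)
    · exact Or.inr (Or.inr fun z hz => hfar b _ h1 z hz)

end Pool.Agent.Q240.PM
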