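import Pool.Agent.Q240.PM.Exist

/-!
Probabilistic part: a degree law with all moments finite, and the Borel-Cantelli argument.
-/

namespace Pool.Agent.Q240.PM

open MeasureTheory ProbabilityTheory Filter Set
open scoped ENNReal NNReal

/-! ### The degree law -/

/-- The geometric law `n ↦ 2^{-(n+1)}` on `ℕ`. -/
noncomputable def geo : PMF ℕ := ⟨fun n => 2⁻¹ ^ (n + 1), by
  have h : (∑' n : ℕ, (2⁻¹ : ℝ≥0∞) ^ (n + 1)) = 1 := by
    rw [ENNReal.tsum_geometric_add_one, ENNReal.one_sub_inv_two, inv_inv,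
      ENNReal.inv_mul_cancel (by norm_num) (by norm_num)]
  rw [← h]
  exact ENNReal.summable.hasSum⟩

lemma geo_apply (n : ℕ) : geo n = 2⁻¹ ^ (n + 1) := rfl

lemma geo_tail (N : ℕ) : geo.toMeasure {j | N ≤ j} = 2⁻¹ ^ N := by
  induction N with
  | zero =>
    have : {j : ℕ | 0 ≤ j} = univ := by ext; simp
    rw [this, measure_univ, pow_zero]
  | succ N ih =>
    have h1 : {j : ℕ | N ≤ j} = {N} ∪ {j | N + 1 ≤ j} := by
      ext j
      simp only [Set.mem_ofPred_eq, Set.singleton_union, Set.mem_insert_iff]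
      omega
    have h2 : Disjoint ({N} : Set ℕ) {j | N + 1 ≤ j} := by
      rw [Set.disjoint_singleton_left]
      simp
    rw [h1, measure_union h2 (Set.to_countable _).measurableSet,
      PMF.toMeasure_apply_singleton _ _ (measurableSet_singleton _), geo_apply] at ih
    have h3 : (2⁻¹ : ℝ≥0∞) ^ N = 2⁻¹ ^ (N + 1) + 2⁻¹ ^ (N + 1) := by
      rw [pow_succ, ← mul_add, ENNReal.inv_two_add_inv_two, mul_one]
    rw [h3] at ih
    have h4 : (2⁻¹ : ℝ≥0∞) ^ (N + 1) ≠ ⊤ := ENNReal.pow_ne_top (by norm_num)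
    exact (ENNReal.add_right_inj h4).mp ih

/-- Integer part of the cube root. -/
def cbrt (j : ℕ) : ℕ := Nat.findGreatest (fun k => k ^ 3 ≤ j) j

lemma le_cbrt {k j : ℕ} : k ≤ cbrt j ↔ k ^ 3 ≤ j := by
  constructor
  · intro h
    have h1 : (cbrt j) ^ 3 ≤ j :=
      Nat.findGreatest_spec (P := fun k => k ^ 3 ≤ j) (Nat.zero_le j) (by simp)
    exact (Nat.pow_le_pow_left h 3).trans h1
  · intro h
    exact Nat.le_findGreatest ((Nat.le_self_pow (by norm_num) k).trans h) h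

/-- `16 ^ (⌊j^{1/3}⌋^2)`. -/
def gg (j : ℕ) : ℕ := 16 ^ ((cbrt j) ^ 2)

/-- The degree law: the law of `16 ^ (⌊J^{1/3}⌋^2)` with `J` geometric of parameter `1/2`. -/
noncomputable def law : PMF ℕ := geo.map gg

lemma law_zero : law 0 = 0 := by
  rw [law, PMF.map_apply]
  simp only [ENNReal.tsum_eq_zero, ite_eq_right_iff]
  intro i hi
  exact absurd hi (pow_ne_zero _ (by norm_num)).symm

lemma law_one : law 1 ≠ 0 := by
  rw [law, PMF.map_apply]
  intro h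
  rw [ENNReal.tsum_eq_zero] at h
  have h2 := h 0
  have h3 : cbrt 0 = 0 := by
    have h1 : ¬ 1 ≤ cbrt 0 := by rw [le_cbrt]; norm_num
    omega
  simp [gg, h3, geo_apply] at h2

lemma mm_le_gg {k j : ℕ} : mm k ≤ gg j ↔ (k + 1) ^ 3 ≤ j := by
  rw [← le_cbrt]
  constructor
  · intro h
    by_contra hcon
    have h1 : gg j ≤ 16 ^ (k ^ 2) :=
      Nat.pow_le_pow_right (by norm_num) (Nat.pow_le_pow_left (by omega) 2)
    have h2 : 0 < 16 ^ (k ^ 2) := by positivity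
    unfold mm at h
    omega
  · intro h
    have h1 : 16 ^ ((k + 1) ^ 2) ≤ gg j :=
      Nat.pow_le_pow_right (by norm_num) (Nat.pow_le_pow_left h 2)
    refine le_trans ?_ h1
    have h2 : 16 ^ ((k + 1) ^ 2) = 16 ^ (k ^ 2) * (16 * 16 ^ (2 * k)) := by
      rw [← pow_succ', ← pow_add]; congr 1; ring
    rw [h2]
    unfold mm
    have h3 : 1 ≤ 16 ^ (2 * k) := Nat.one_le_pow _ _ (by norm_num)
    have h4 : 0 < 16 ^ (k ^ 2) := by positivity
    nlinarith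

lemma dd_le_gg {k j : ℕ} : dd k ≤ gg j ↔ (k + 1) ^ 3 ≤ j := by
  rw [← le_cbrt]
  unfold dd gg
  rw [Nat.pow_le_pow_iff_right (by norm_num), Nat.pow_le_pow_iff_left (by norm_num)]

lemma law_mm (k : ℕ) : law.toMeasure {n | mm k ≤ n} = 2⁻¹ ^ ((k + 1) ^ 3) := by
  rw [law, PMF.toMeasure_map_apply _ _ _ (by fun_prop) (Set.to_countable _).measurableSet,
    ← geo_tail]
  congr 1
  ext j
  exact mm_le_gg

lemma law_dd (k : ℕ) : law.toMeasure {n | dd k ≤ n} = 2⁻¹ ^ ((k + 1) ^ 3) := by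
  rw [law, PMF.toMeasure_map_apply _ _ _ (by fun_prop) (Set.to_countable _).measurableSet,
    ← geo_tail]
  congr 1
  ext j
  exact dd_le_gg

lemma gg_bound (q j : ℕ) : ((gg j : ℕ) : ℝ) ^ q ≤ 2 ^ (512 * q ^ 3) * (3 / 2) ^ j := by
  set c := cbrt j with hc
  have h1 : c ^ 3 ≤ j := le_cbrt.mp le_rfl
  have h2 : 8 * q * c ^ 2 ≤ 512 * q ^ 3 + j := by
    rcases le_or_gt (8 * q) c with h | h
    · have : 8 * q * c ^ 2 ≤ c * c ^ 2 := Nat.mul_le_mul_right _ h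
      have e : c * c ^ 2 = c ^ 3 := by ring
      omega
    · have h3 : c ^ 2 ≤ (8 * q) ^ 2 := Nat.pow_le_pow_left h.le 2
      have : 8 * q * c ^ 2 ≤ 8 * q * (8 * q) ^ 2 := Nat.mul_le_mul_left _ h3
      have e : 8 * q * (8 * q) ^ 2 = 512 * q ^ 3 := by ring
      omega
  have h3 : (((gg j : ℕ) : ℝ) ^ q) ^ 2 ≤ (2 ^ (512 * q ^ 3) * (3 / 2) ^ j) ^ 2 := by
    have e1 : (((gg j : ℕ) : ℝ) ^ q) ^ 2 = 2 ^ (8 * q * c ^ 2) := by
      unfold gg
      rw [← hc]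
      push_cast
      rw [show (16 : ℝ) = 2 ^ 4 by norm_num, ← pow_mul, ← pow_mul, ← pow_mul]
      congr 1
      ring
    rw [e1]
    calc (2 : ℝ) ^ (8 * q * c ^ 2) ≤ 2 ^ (512 * q ^ 3 + j) :=
          pow_le_pow_right₀ (by norm_num) h2
      _ = 2 ^ (512 * q ^ 3) * 2 ^ j := pow_add _ _ _
      _ ≤ (2 ^ (512 * q ^ 3)) ^ 2 * ((3 / 2) ^ 2) ^ j := by
          gcongr
          · rw [← pow_mul]
            exact pow_le_pow_right₀ (by norm_num) (by omega)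
          · norm_num
      _ = (2 ^ (512 * q ^ 3) * (3 / 2) ^ j) ^ 2 := by
          rw [mul_pow, ← pow_mul (3 / 2 : ℝ), ← pow_mul (3 / 2 : ℝ), mul_comm 2 j]
  exact (pow_le_pow_iff_left₀ (by positivity) (by positivity) (by norm_num)).mp h3

lemma law_moment (q : ℕ) : ∫⁻ n, (n : ℝ≥0∞) ^ q ∂law.toMeasure < ⊤ := by
  have h1 : law.toMeasure = geo.toMeasure.map gg := by
    rw [law, PMF.toMeasure_map _ _ (by fun_prop)]
  rw [h1, lintegral_map (by fun_prop) (by fun_prop), lintegral_countable']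
  have h2 : ∀ j : ℕ, ((gg j : ℕ) : ℝ≥0∞) ^ q * geo.toMeasure {j} ≤
      ENNReal.ofReal (2 ^ (512 * q ^ 3)) * ENNReal.ofReal (3 / 4) ^ j := by
    intro j
    rw [PMF.toMeasure_apply_singleton _ _ (measurableSet_singleton _), geo_apply]
    have e1 : (2⁻¹ : ℝ≥0∞) ^ (j + 1) = ENNReal.ofReal ((1 / 2) ^ (j + 1)) := by
      rw [ENNReal.ofReal_pow (by norm_num), one_div, ENNReal.ofReal_inv_of_pos (by norm_num)]
      simp
    rw [e1, ← ENNReal.ofReal_natCast, ← ENNReal.ofReal_pow (by positivity),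
      ← ENNReal.ofReal_mul (by positivity), ← ENNReal.ofReal_pow (by norm_num),
      ← ENNReal.ofReal_mul (by positivity)]
    apply ENNReal.ofReal_le_ofReal
    calc ((gg j : ℕ) : ℝ) ^ q * (1 / 2) ^ (j + 1)
        ≤ (2 ^ (512 * q ^ 3) * (3 / 2) ^ j) * (1 / 2) ^ (j + 1) := by
          gcongr
          exact gg_bound q j
      _ = 2 ^ (512 * q ^ 3) * (3 / 4) ^ j * (1 / 2) := by
          rw [pow_succ, show (3 / 4 : ℝ) = (3 / 2) * (1 / 2) by norm_num, mul_pow]; ring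
      _ ≤ 2 ^ (512 * q ^ 3) * (3 / 4) ^ j := by
          have : (0 : ℝ) ≤ 2 ^ (512 * q ^ 3) * (3 / 4) ^ j := by positivity
          linarith
  refine lt_of_le_of_lt (ENNReal.tsum_le_tsum h2) ?_
  rw [ENNReal.tsum_mul_left, ENNReal.tsum_geometric]
  apply ENNReal.mul_lt_top ENNReal.ofReal_lt_top
  rw [ENNReal.inv_lt_top, tsub_pos_iff_lt]
  rw [← ENNReal.ofReal_one]
  exact (ENNReal.ofReal_lt_ofReal_iff (by norm_num)).mpr (by norm_num)

/-! ### Poisson estimates -/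

variable {Ω : Type*} [MeasurableSpace Ω] {P : Measure Ω} {μ : PMF ℕ}
  {V : Ω → Set ℝ} {D : Ω → ℝ → ℕ}

lemma IsMarkedPoisson.law_single (h : IsMarkedPoisson P μ V D) {B : Set (ℝ × ℕ)} {r : ℝ≥0}
    (hB : MeasurableSet B) (hr : ((volume : Measure ℝ).prod μ.toMeasure) B = r) (n : ℕ) :
    P {ω | cnt (V ω) (D ω) B = n} = poissonMeasure r {n} := by
  have := h.law 1 (fun _ => B) (fun _ => r) (fun _ => hB)
    (fun i j hij => absurd (Subsingleton.elim i j) hij) (fun _ => hr) (fun _ => n)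
  simpa using this

lemma IsMarkedPoisson.tail [IsProbabilityMeasure P] (h : IsMarkedPoisson P μ V D)
    {B : Set (ℝ × ℕ)} {r : ℝ≥0}
    (hB : MeasurableSet B) (hr : ((volume : Measure ℝ).prod μ.toMeasure) B = r) (m : ℕ) :
    P {ω | (m : ℕ∞) ≤ cnt (V ω) (D ω) B} = poissonMeasure r {n | m ≤ n} := by
  have h1 : {ω | cnt (V ω) (D ω) B < m} =
      ⋃ n ∈ Finset.range m, {ω | cnt (V ω) (D ω) B = (n : ℕ)} := by
    ext ω
    simp only [Set.mem_ofPred_eq, Set.mem_iUnion, Finset.mem_range, exists_prop]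
    constructor
    · intro hω
      obtain ⟨n, hn⟩ := ENat.ne_top_iff_exists.mp (ne_top_of_lt hω)
      refine ⟨n, ?_, hn.symm⟩
      rw [← hn] at hω
      exact_mod_cast hω
    · rintro ⟨n, hn, hω⟩
      rw [hω]
      exact_mod_cast hn
  have hm1 : MeasurableSet {ω | cnt (V ω) (D ω) B < m} := by
    rw [h1]
    exact MeasurableSet.biUnion (Set.to_countable _) fun n _ => h.meas B hB n
  have h2 : P {ω | cnt (V ω) (D ω) B < m} = poissonMeasure r (↑(Finset.range m) : Set ℕ) := by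
    rw [h1, measure_biUnion_finset, ← sum_measure_singleton]
    · exact Finset.sum_congr rfl fun n _ => h.law_single hB hr n
    · intro a _ b _ hab
      refine Set.disjoint_left.mpr ?_
      intro ω h3 h4
      simp only [Set.mem_ofPred_eq] at h3 h4
      rw [h3] at h4
      exact hab (by exact_mod_cast h4)
    · exact fun n _ => h.meas B hB n
  have h3 : {ω | (m : ℕ∞) ≤ cnt (V ω) (D ω) B} = {ω | cnt (V ω) (D ω) B < m}ᶜ := by
    ext ω; simp
  have h4 : {n | m ≤ n} = (↑(Finset.range m) : Set ℕ)ᶜ := by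
    ext n; simp
  rw [h3, h4, prob_compl_eq_one_sub hm1, prob_compl_eq_one_sub (Set.to_countable _).measurableSet, h2]

lemma poisson_tail (r : ℝ≥0) {m : ℕ} (hm : m ≠ 0) :
    poissonMeasure r {n | m ≤ n} ≤ r / m := by
  have h0 : ∫⁻ n, (n : ℝ≥0∞) ∂(poissonMeasure r) = r := by
    rw [lintegral_countable', tsum_eq_zero_add' ENNReal.summable]
    simp only [Nat.cast_zero, zero_mul, zero_add]
    have h1 : ∀ n : ℕ, ((n + 1 : ℕ) : ℝ≥0∞) * poissonMeasure r {n + 1} =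
        r * poissonMeasure r {n} := by
      intro n
      rw [poissonMeasure_singleton, poissonMeasure_singleton, ← ENNReal.ofReal_natCast,
        ← ENNReal.ofReal_coe_nnreal, ← ENNReal.ofReal_mul (by positivity),
        ← ENNReal.ofReal_mul (by positivity)]
      congr 1
      rw [Nat.factorial_succ]
      have : ((n : ℝ) + 1) ≠ 0 := by positivity
      push_cast
      field_simp
      ring
    simp_rw [h1]
    rw [ENNReal.tsum_mul_left]
    have h2 : ∑' n : ℕ, poissonMeasure r {n} = 1 := by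
      rw [← measure_univ (μ := poissonMeasure r)]
      have := (lintegral_countable' (μ := poissonMeasure r) (fun _ => (1 : ℝ≥0∞))).symm
      simpa using this
    rw [h2, mul_one]
  have h1 := meas_ge_le_lintegral_div (μ := poissonMeasure r) (f := fun n : ℕ => (n : ℝ≥0∞))
    (by fun_prop) (ε := (m : ℝ≥0∞)) (by exact_mod_cast hm) (by simp)
  rw [h0] at h1
  refine le_trans (measure_mono ?_) h1
  intro n hn
  simp only [Set.mem_ofPred_eq] at hn ⊢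
  exact_mod_cast hn

lemma poisson_chernoff (r : ℝ≥0) (m : ℕ) :
    poissonMeasure r {n | m ≤ n} ≤ ENNReal.ofReal (Real.exp r) / 2 ^ m := by
  have h0 : ∫⁻ n, (2 : ℝ≥0∞) ^ n ∂(poissonMeasure r) = ENNReal.ofReal (Real.exp r) := by
    rw [lintegral_countable']
    have h1 : ∀ n : ℕ, (2 : ℝ≥0∞) ^ n * poissonMeasure r {n} =
        ENNReal.ofReal (Real.exp (-r) * ((2 * r : ℝ) ^ n / n.factorial)) := by
      intro n
      rw [poissonMeasure_singleton, show (2 : ℝ≥0∞) = ENNReal.ofReal 2 by simp,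
        ← ENNReal.ofReal_pow (by norm_num), ← ENNReal.ofReal_mul (by positivity)]
      congr 1
      rw [mul_pow]
      ring
    simp_rw [h1]
    have h2 : HasSum (fun n : ℕ => Real.exp (-r) * ((2 * r : ℝ) ^ n / n.factorial))
        (Real.exp (-r) * Real.exp (2 * r)) := by
      apply HasSum.mul_left
      rw [Real.exp_eq_exp_ℝ]
      exact NormedSpace.expSeries_div_hasSum_exp (2 * r : ℝ)
    rw [← ENNReal.ofReal_tsum_of_nonneg (fun n => by positivity) h2.summable, h2.tsum_eq,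
      ← Real.exp_add]
    congr 2
    ring
  have h1 := meas_ge_le_lintegral_div (μ := poissonMeasure r) (f := fun n : ℕ => (2 : ℝ≥0∞) ^ n)
    (by fun_prop) (ε := (2 : ℝ≥0∞) ^ m) (by positivity) (ENNReal.pow_ne_top (by norm_num))
  rw [h0] at h1
  refine le_trans (measure_mono ?_) h1
  intro n hn
  simp only [Set.mem_ofPred_eq] at hn ⊢
  exact pow_le_pow_right₀ (by norm_num) hn

lemma pow_bound (k : ℕ) : ENNReal.ofReal (Real.exp (-(2 ^ k : ℝ))) ≤ 2⁻¹ ^ k := by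
  have h1 : Real.exp (-(2 ^ k : ℝ)) ≤ (2⁻¹ : ℝ) ^ k := by
    rw [Real.exp_neg, inv_pow]
    apply inv_anti₀ (by positivity)
    linarith [Real.add_one_le_exp ((2 : ℝ) ^ k)]
  refine (ENNReal.ofReal_le_ofReal h1).trans ?_
  rw [ENNReal.ofReal_pow (by norm_num), ENNReal.ofReal_inv_of_pos (by norm_num)]
  simp

/-! ### The boxes -/

/-- the box of giants at scale `k` -/
def boxA (k : ℕ) : Set (ℝ × ℕ) := Icc (-(2 : ℝ) ^ bb k) (2 ^ bb k) ×ˢ {n | dd k ≤ n}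

/-- the big box of rather large degrees at scale `k` -/
def boxB (k : ℕ) : Set (ℝ × ℕ) :=
  Icc (-(2 : ℝ) ^ (bb (k + 1) + 2)) (2 ^ (bb (k + 1) + 2)) ×ˢ {n | mm k ≤ n}

/-- the windows of length `3` at scale `k` -/
def boxC (k i : ℕ) : Set (ℝ × ℕ) :=
  Icc ((i : ℝ) - 2 ^ bb k - 1) ((i : ℝ) - 2 ^ bb k + 2) ×ˢ univ

lemma boxA_meas (k : ℕ) : MeasurableSet (boxA k) :=
  measurableSet_Icc.prod (Set.to_countable _).measurableSet

lemma boxB_meas (k : ℕ) : MeasurableSet (boxB k) :=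
  measurableSet_Icc.prod (Set.to_countable _).measurableSet

lemma boxC_meas (k i : ℕ) : MeasurableSet (boxC k i) :=
  measurableSet_Icc.prod MeasurableSet.univ

lemma vol_aux (a b : ℕ) : ENNReal.ofReal ((2 : ℝ) ^ (a + b) - -(2 : ℝ) ^ (a + b)) * 2⁻¹ ^ b =
    ((2 ^ (a + 1) : ℝ≥0) : ℝ≥0∞) := by
  have h1 : (2 : ℝ) ^ (a + b) - -(2 : ℝ) ^ (a + b) = 2 ^ (a + 1) * 2 ^ b := by
    rw [pow_add, pow_add]; ring
  rw [h1, ENNReal.ofReal_mul (by positivity), ENNReal.ofReal_pow (by norm_num),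
    ENNReal.ofReal_pow (by norm_num), mul_assoc, ← mul_pow]
  simp only [ENNReal.ofReal_ofNat]
  rw [ENNReal.mul_inv_cancel (by norm_num) (by norm_num)]
  simp

lemma boxA_vol (k : ℕ) :
    ((volume : Measure ℝ).prod law.toMeasure) (boxA k) = ((2 ^ (k + 1) : ℝ≥0) : ℝ≥0∞) := by
  rw [boxA, Measure.prod_prod, Real.volume_Icc, law_dd, ← vol_aux k ((k + 1) ^ 3)]
  have : bb k = k + (k + 1) ^ 3 := by unfold bb; ring
  rw [this]

lemma boxB_vol (k : ℕ) :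
    ((volume : Measure ℝ).prod law.toMeasure) (boxB k) =
      ((2 ^ (3 * k ^ 2 + 10 * k + 10 + 1) : ℝ≥0) : ℝ≥0∞) := by
  rw [boxB, Measure.prod_prod, Real.volume_Icc, law_mm, ← vol_aux _ ((k + 1) ^ 3)]
  have : bb (k + 1) + 2 = (3 * k ^ 2 + 10 * k + 10) + (k + 1) ^ 3 := by unfold bb; ring
  rw [this]

lemma boxC_vol (μ : PMF ℕ) (k i : ℕ) :
    ((volume : Measure ℝ).prod μ.toMeasure) (boxC k i) = ((3 : ℝ≥0) : ℝ≥0∞) := by
  rw [boxC, Measure.prod_prod, Real.volume_Icc, measure_univ, mul_one]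
  rw [show (i : ℝ) - 2 ^ bb k + 2 - (i - 2 ^ bb k - 1) = 3 by ring]
  simp

lemma exists_of_cnt_boxA {V : Set ℝ} {D : ℝ → ℕ} {k : ℕ} (h : cnt V D (boxA k) ≠ 0) :
    ∃ x ∈ V, |x| ≤ 2 ^ bb k ∧ dd k ≤ D x := by
  unfold cnt boxA at h
  rw [Set.encard_ne_zero] at h
  obtain ⟨x, hx1, hx2⟩ := h
  simp only [Set.mem_prod, Set.mem_Icc] at hx2
  exact ⟨x, hx1, abs_le.mpr hx2.1, hx2.2⟩

lemma cnt_boxB {V : Set ℝ} {D : ℝ → ℕ} {k : ℕ} :
    cnt V D (boxB k) = {y | y ∈ V ∧ |y| ≤ 2 ^ (bb (k + 1) + 2) ∧ mm k ≤ D y}.encard := by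
  unfold cnt boxB
  congr 1
  ext z
  simp only [Set.mem_prod, Set.mem_Icc, Set.mem_ofPred_eq, abs_le]

lemma window_of {V : Set ℝ} {D : ℝ → ℕ} {k : ℕ} {x : ℝ} (hx : |x| ≤ 2 ^ bb k) :
    ∃ i ∈ Finset.range (2 * 2 ^ bb k + 1),
      {y | y ∈ V ∧ |x - y| ≤ 1} ⊆ {y | y ∈ V ∧ (y, D y) ∈ boxC k i} := by
  rw [abs_le] at hx
  refine ⟨⌊x + 2 ^ bb k⌋₊, ?_, ?_⟩
  · rw [Finset.mem_range]
    have h1 : (⌊x + 2 ^ bb k⌋₊ : ℝ) ≤ x + 2 ^ bb k := Nat.floor_le (by linarith)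
    have h2 : (⌊x + 2 ^ bb k⌋₊ : ℝ) < ((2 * 2 ^ bb k + 1 : ℕ) : ℝ) := by
      push_cast
      linarith
    exact_mod_cast h2
  · rintro y ⟨hy1, hy2⟩
    refine ⟨hy1, ?_⟩
    have h1 : (⌊x + 2 ^ bb k⌋₊ : ℝ) ≤ x + 2 ^ bb k := Nat.floor_le (by linarith)
    have h2 : x + 2 ^ bb k < (⌊x + 2 ^ bb k⌋₊ : ℝ) + 1 := Nat.lt_floor_add_one _
    rw [abs_le] at hy2
    simp only [boxC, Set.mem_prod, Set.mem_Icc, Set.mem_univ, and_true]
    constructor <;> linarith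

lemma probB_bound (k : ℕ) :
    ((2 ^ (3 * k ^ 2 + 10 * k + 10 + 1) : ℝ≥0) : ℝ≥0∞) / (mm k : ℕ) ≤ 2 ^ 41 * 2⁻¹ ^ k := by
  have h1 : ((mm k : ℕ) : ℝ≥0∞) = 2 ^ (4 * k ^ 2 + 1) := by
    unfold mm
    push_cast
    rw [show (16 : ℝ≥0∞) = 2 ^ 4 by norm_num, ← pow_mul, ← pow_succ']
  rw [h1, ENNReal.div_le_iff (by positivity) (ENNReal.pow_ne_top (by norm_num))]
  have h2 : (2 : ℝ≥0∞) ^ 41 * 2⁻¹ ^ k * 2 ^ (4 * k ^ 2 + 1) =
      2 ^ (41 + (4 * k ^ 2 + 1)) * 2⁻¹ ^ k := by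
    rw [pow_add]; ring
  rw [h2]
  have h3 : (3 * k ^ 2 + 10 * k + 10 + 1) + k ≤ 41 + (4 * k ^ 2 + 1) := by
    rcases Nat.lt_or_ge k 12 with h | h
    · interval_cases k <;> norm_num
    · nlinarith
  have h4 : (2 : ℝ≥0∞) ^ (3 * k ^ 2 + 10 * k + 10 + 1) =
      2 ^ ((3 * k ^ 2 + 10 * k + 10 + 1) + k) * 2⁻¹ ^ k := by
    rw [pow_add _ _ k, mul_assoc, ← mul_pow, ENNReal.mul_inv_cancel (by norm_num) (by norm_num),
      one_pow, mul_one]
  push_cast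
  rw [h4]
  gcongr
  norm_num

lemma probC_bound (k : ℕ) :
    ((2 * 2 ^ bb k + 1 : ℕ) : ℝ≥0∞) * (ENNReal.ofReal (Real.exp (3 : ℝ≥0)) / 2 ^ mm k) ≤
      2 * ENNReal.ofReal (Real.exp (3 : ℝ≥0)) * 2⁻¹ ^ k := by
  have h1 : ((2 * 2 ^ bb k + 1 : ℕ) : ℝ≥0∞) ≤ 2 ^ (bb k + 2) := by
    have h2 : (2 * 2 ^ bb k + 1 : ℕ) ≤ 2 ^ (bb k + 2) := by
      have : 1 ≤ 2 ^ bb k := Nat.one_le_pow _ _ (by norm_num)
      rw [pow_add]; omega
    exact_mod_cast h2
  have hexp : bb k + 2 + k ≤ mm k + 1 := by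
    unfold bb mm
    rcases Nat.eq_zero_or_pos k with rfl | hk
    · norm_num
    · have h3 : k + 1 ≤ 2 ^ k := by
        have := Nat.lt_pow_self (a := 2) (n := k) (by norm_num)
        omega
      have h4 : (k + 1) ^ 3 ≤ 16 ^ (k ^ 2) := by
        calc (k + 1) ^ 3 ≤ (2 ^ k) ^ 3 := Nat.pow_le_pow_left h3 3
          _ = 2 ^ (k * 3) := by rw [← pow_mul]
          _ ≤ 2 ^ (4 * k ^ 2) := Nat.pow_le_pow_right (by norm_num) (by nlinarith)
          _ = 16 ^ (k ^ 2) := by rw [pow_mul]; norm_num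
      have h5 : 2 * (k + 1) ≤ 16 ^ (k ^ 2) := by
        calc 2 * (k + 1) ≤ 2 * 2 ^ k := Nat.mul_le_mul_left _ h3
          _ = 2 ^ (k + 1) := by ring
          _ ≤ 2 ^ (4 * k ^ 2) := Nat.pow_le_pow_right (by norm_num) (by nlinarith)
          _ = 16 ^ (k ^ 2) := by rw [pow_mul]; norm_num
      omega
  have h3 : (2 : ℝ≥0∞) ^ (bb k + 2) / 2 ^ mm k ≤ 2 * 2⁻¹ ^ k := by
    rw [ENNReal.div_le_iff (by positivity) (ENNReal.pow_ne_top (by norm_num))]
    have h4 : (2 : ℝ≥0∞) ^ (bb k + 2) = 2 ^ (bb k + 2 + k) * 2⁻¹ ^ k := by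
      rw [pow_add _ _ k, mul_assoc, ← mul_pow, ENNReal.mul_inv_cancel (by norm_num) (by norm_num),
        one_pow, mul_one]
    have h5 : (2 : ℝ≥0∞) * 2⁻¹ ^ k * 2 ^ mm k = 2 ^ (mm k + 1) * 2⁻¹ ^ k := by
      rw [pow_succ]; ring
    rw [h4, h5]
    gcongr
    norm_num
  calc ((2 * 2 ^ bb k + 1 : ℕ) : ℝ≥0∞) * (ENNReal.ofReal (Real.exp (3 : ℝ≥0)) / 2 ^ mm k)
      ≤ 2 ^ (bb k + 2) * (ENNReal.ofReal (Real.exp (3 : ℝ≥0)) / 2 ^ mm k) := by gcongr
    _ = ENNReal.ofReal (Real.exp (3 : ℝ≥0)) * (2 ^ (bb k + 2) / 2 ^ mm k) := by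
        rw [div_eq_mul_inv, div_eq_mul_inv]; ring
    _ ≤ ENNReal.ofReal (Real.exp (3 : ℝ≥0)) * (2 * 2⁻¹ ^ k) := by gcongr
    _ = 2 * ENNReal.ofReal (Real.exp (3 : ℝ≥0)) * 2⁻¹ ^ k := by ring

theorem ae_good [IsProbabilityMeasure P] (h : IsMarkedPoisson P law V D) :
    ∀ᵐ ω ∂P, ∃ x K, Good (V ω) (D ω) x K := by
  have hgeo : (∑' k : ℕ, (2⁻¹ : ℝ≥0∞) ^ k) ≠ ⊤ := by
    rw [ENNReal.tsum_geometric, ENNReal.one_sub_inv_two, inv_inv]
    norm_num
  have hA : ∀ᵐ ω ∂P, ∀ᶠ k in atTop, ω ∉ {ω | cnt (V ω) (D ω) (boxA k) = ((0 : ℕ) : ℕ∞)} := by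
    apply ae_eventually_notMem
    apply ne_top_of_le_ne_top hgeo
    refine ENNReal.tsum_le_tsum fun k => ?_
    rw [h.law_single (boxA_meas k) (boxA_vol k), poissonMeasure_singleton]
    refine le_trans (le_trans (le_of_eq ?_) (pow_bound (k + 1))) ?_
    · simp
    · exact pow_le_pow_of_le_one (by simp) (by simp) (by omega)
  have hB : ∀ᵐ ω ∂P, ∀ᶠ k in atTop,
      ω ∉ {ω | ((mm k : ℕ) : ℕ∞) ≤ cnt (V ω) (D ω) (boxB k)} := by
    apply ae_eventually_notMem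
    apply ne_top_of_le_ne_top (b := ∑' k : ℕ, 2 ^ 41 * (2⁻¹ : ℝ≥0∞) ^ k)
    · rw [ENNReal.tsum_mul_left]
      exact ENNReal.mul_ne_top (by norm_num) hgeo
    · refine ENNReal.tsum_le_tsum fun k => ?_
      rw [h.tail (boxB_meas k) (boxB_vol k)]
      refine (poisson_tail _ (by unfold mm; positivity)).trans (probB_bound k)
  have hC : ∀ᵐ ω ∂P, ∀ᶠ k in atTop,
      ω ∉ ⋃ i ∈ Finset.range (2 * 2 ^ bb k + 1),
        {ω | ((mm k : ℕ) : ℕ∞) ≤ cnt (V ω) (D ω) (boxC k i)} := by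
    apply ae_eventually_notMem
    apply ne_top_of_le_ne_top
      (b := ∑' k : ℕ, 2 * ENNReal.ofReal (Real.exp (3 : ℝ≥0)) * (2⁻¹ : ℝ≥0∞) ^ k)
    · rw [ENNReal.tsum_mul_left]
      exact ENNReal.mul_ne_top (ENNReal.mul_ne_top (by norm_num) ENNReal.ofReal_ne_top) hgeo
    · refine ENNReal.tsum_le_tsum fun k => ?_
      refine (measure_biUnion_finset_le _ _).trans ?_
      refine (Finset.sum_le_card_nsmul _ _
        (ENNReal.ofReal (Real.exp (3 : ℝ≥0)) / 2 ^ mm k) ?_).trans ?_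
      · intro i _
        rw [h.tail (boxC_meas k i) (boxC_vol law k i)]
        exact poisson_chernoff 3 (mm k)
      · rw [Finset.card_range, nsmul_eq_mul]
        exact probC_bound k
  filter_upwards [hA, hB, hC] with ω h1 h2 h3
  obtain ⟨K, hK⟩ := eventually_atTop.mp ((h1.and h2).and h3)
  have h4 : ∀ k, ∃ x, K ≤ k → x ∈ V ω ∧ |x| ≤ 2 ^ bb k ∧ dd k ≤ D ω x := by
    intro k
    by_cases hk : K ≤ k
    · have h5 := (hK k hk).1.1
      simp only [Nat.cast_zero] at h5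
      obtain ⟨x, hx⟩ := exists_of_cnt_boxA h5
      exact ⟨x, fun _ => hx⟩
    · exact ⟨0, fun h => absurd h hk⟩
  choose x hx using h4
  have hcrowd : ∀ k, K ≤ k → ∀ y : ℝ, |y| ≤ 2 ^ bb k →
      {z | z ∈ V ω ∧ |y - z| ≤ 1}.encard ≤ mm k := by
    intro k hk y hy
    obtain ⟨i, hi, hsub⟩ := window_of (V := V ω) (D := D ω) hy
    have h6 := (hK k hk).2
    simp only [Set.mem_iUnion, not_exists] at h6
    have h7 : cnt (V ω) (D ω) (boxC k i) < (mm k : ℕ∞) :=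
      lt_of_not_ge fun hle => h6 i hi hle
    exact (encard_le_encard hsub).trans h7.le
  refine ⟨x, max K 1, ⟨le_max_right _ _, fun k hk => (hx k (by omega)).1,
    fun k hk => (hx k (by omega)).2.1, fun k hk => (hx k (by omega)).2.2, fun k hk => ?_,
    fun k hk => hcrowd k (by omega) _ (hx k (by omega)).2.1, fun r => ?_⟩⟩
  · have h5 := not_le.mp (hK k (by omega)).1.2
    rw [cnt_boxB] at h5
    exact h5
  · obtain ⟨n, hn⟩ := pow_unbounded_of_one_lt r (show (1 : ℝ) < 2 by norm_num)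
    set k := max K n with hk
    have hr : r ≤ 2 ^ bb k :=
      hn.le.trans (pow_le_pow_right₀ (by norm_num) ((le_max_right K n).trans (le_bb _)))
    have hfin : ∀ i ∈ Finset.range (2 * 2 ^ bb k + 1),
        {y | y ∈ V ω ∧ (y, D ω y) ∈ boxC k i}.Finite := by
      intro i hi
      have h6 := (hK k (le_max_left _ _)).2
      simp only [Set.mem_iUnion, not_exists] at h6
      have h7 : cnt (V ω) (D ω) (boxC k i) < (mm k : ℕ∞) :=
      lt_of_not_ge fun hle => h6 i hi hle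
      rw [← encard_lt_top_iff]
      exact h7.trans_le le_top
    refine ((Finset.range (2 * 2 ^ bb k + 1)).finite_toSet.biUnion hfin).subset ?_
    rintro y ⟨hy1, hy2⟩
    have hy3 : |y| ≤ 2 ^ bb k := le_trans hy2 hr
    obtain ⟨i, hi, hsub⟩ := window_of (V := V ω) (D := D ω) hy3
    simp only [Set.mem_iUnion]
    exact ⟨i, hi, hsub ⟨hy1, by simp⟩⟩

end Pool.Agent.Q240.PM
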